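import Pool.Agent.Lib.MP_5d015b_lc.FGF
import Pool.Agent.Lib.MP_5d015b_lc.QTH
import Pool.Agent.Lib.MP_5d015b_lc.QTI
import Pool.Agent.Lib.MP_5d015b_lc.Statement
import Pool.Agent.Lib.MP_5d015b_lc.JJ.StatementG
import Pool.Agent.Lib.MP_5d015b_lc.JJ.X3
import Pool.Agent.Lib.PolyTime.BinNat

/-!
# The globally rigid pinning problem is solvable in polynomial time

Given a graph `G` with `n` vertices, find a smallest set `P` of vertices such that `G + K(P)` is
globally rigid in the plane, that is, every realization with the same edge lengths as a generic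
realization is congruent to it. We prove that a deterministic Turing machine finds a smallest `P` in
polynomial time, that one computes its size, and that one decides the decision version (with the
integer `k` written in binary).
-/

set_option autoImplicit false

namespace Pool.Agent.Results.MP_5d015b_lc.PinningInP

open Pool.Agent.Lib.MP_5d015b_lc Pool.Agent.Lib.PolyTime

/-- The set `P` of vertices makes `G + K(P)` globally rigid in the plane, where `G` is the graph on
`0, …, n-1` given by the list `el` of pairs. -/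
def Pins (n : ℕ) (el : List (ℕ × ℕ)) (P : Finset (Fin n)) : Prop :=
  GloballyRigid (addClique (graphOf n el) P)

theorem pt_decide (f : ℕ × List (ℕ × ℕ) → ℕ) (hf : PT f) :
    PT (fun x : (ℕ × List (ℕ × ℕ)) × BN => decide (f x.1 ≤ x.2.val)) :=
  PT.bnLe (PT.toBN (hf.comp PT.fst)) PT.snd

theorem code_length_le (n : ℕ) (el : List (ℕ × ℕ)) (k : ℕ) (h : ∀ e ∈ el, e.1 < n ∧ e.2 < n) :
    (code ((n, el), (⟨k⟩ : BN))).length ≤ 4 * (n + 1) * (el.length + 1) + 4 * Nat.size k + 2 := by
  have h1 : ∀ e ∈ el, size e ≤ 4 * n + 3 := by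
    intro e he
    obtain ⟨a, b⟩ := h e he
    have e1 : size e = size e.1 + size e.2 + 1 := size_prod e
    rw [e1, size_nat, size_nat]
    omega
  have h2 := size_list_le el h1
  have h3 : size (⟨k⟩ : BN) ≤ 4 * Nat.size k + 1 := size_BN_le (⟨k⟩ : BN)
  have e2 : size ((n, el), (⟨k⟩ : BN)) = size (n, el) + size (⟨k⟩ : BN) + 1 := size_prod _
  have e3 : size (n, el) = size n + size el + 1 := size_prod _
  rw [length_code, e2, e3, size_nat]
  nlinarith [Nat.zero_le n, Nat.zero_le el.length, Nat.zero_le (n * el.length)]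

theorem least (n : ℕ) (el : List (ℕ × ℕ)) :
    IsLeast {k | ∃ P : Finset (Fin n), P.card = k ∧ Pins n el P} (minPin (n, el)) := by
  have h := minPin_graph n el
  have h1 : {k | ∃ P : Finset (Fin n), P.card = k ∧ Pins n el P} =
      {k | ∃ P : Finset (Fin n), P.card = k ∧
        GloballyRigidPlane (addClique (graphOf n el) P)} := by
    ext k
    refine exists_congr fun P => and_congr Iff.rfl ?_
    exact JJ.globallyRigid_iff _
  rw [h1]
  exact h

/-- **The globally rigid pinning problem is in P.** -/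
theorem result :
    ∃ (f : ℕ × List (ℕ × ℕ) → ℕ) (g : ℕ × List (ℕ × ℕ) → List ℕ)
      (d : (ℕ × List (ℕ × ℕ)) × BN → Bool),
      Nonempty (Turing.TM2ComputableInPolyTime (code : ℕ × List (ℕ × ℕ) → List Bool)
        (code : ℕ → List Bool) f) ∧
      Nonempty (Turing.TM2ComputableInPolyTime (code : ℕ × List (ℕ × ℕ) → List Bool)
        (code : List ℕ → List Bool) g) ∧
      Nonempty (Turing.TM2ComputableInPolyTime
        (code : (ℕ × List (ℕ × ℕ)) × BN → List Bool) (code : Bool → List Bool) d) ∧
      (∀ n el, IsLeast {k | ∃ P : Finset (Fin n), P.card = k ∧ Pins n el P} (f (n, el))) ∧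
      (∀ n el, ∃ P : Finset (Fin n), (g (n, el)).Nodup ∧
        (g (n, el)).toFinset = P.image Fin.val ∧ P.card = f (n, el) ∧ Pins n el P) ∧
      (∀ n el k, d ((n, el), ⟨k⟩) = true ↔ ∃ P : Finset (Fin n), P.card ≤ k ∧ Pins n el P) ∧
      Function.Injective (code : (ℕ × List (ℕ × ℕ)) × BN → List Bool) ∧
      Function.Injective (code : ℕ × List (ℕ × ℕ) → List Bool) ∧
      ∀ (n : ℕ) (el : List (ℕ × ℕ)) (k : ℕ), (∀ e ∈ el, e.1 < n ∧ e.2 < n) → (code ((n, el), (⟨k⟩ : BN))).length ≤
        4 * (n + 1) * (el.length + 1) + 4 * Nat.size k + 2 := by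
  refine ⟨minPin, pinSet, fun x => decide (minPin x.1 ≤ x.2.val), PT.computable pt_minPin,
    PT.computable pt_pinSet, PT.computable (pt_decide minPin pt_minPin), least, ?_, ?_,
    code_injective _, code_injective _, code_length_le⟩
  · intro n el
    obtain ⟨P, h1, h2, h3, h4⟩ := pinSet_graph n el
    exact ⟨P, h1, h2, h3, (JJ.globallyRigid_iff _).2 h4⟩
  · intro n el k
    obtain ⟨⟨P, hP, hPG⟩, hmin⟩ := least n el
    rw [decide_eq_true_iff]
    constructor
    · intro h
      exact ⟨P, hP.le.trans h, hPG⟩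
    · rintro ⟨Q, hQ, hQG⟩
      exact (hmin ⟨Q, rfl, hQG⟩).trans hQ

end Pool.Agent.Results.MP_5d015b_lc.PinningInP
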